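import Pool.Agent.Helper6K1.BN.T1c

set_option autoImplicit false

/-! `NP ⊆ BPP` holds exactly when the vector of the true answers to logarithmically many instances can
be distinguished from a random vector by a randomised polynomial-time test with an inverse polynomial
advantage. -/

namespace Pool.Agent.Helper6K1.Old.AnswerVectors

open Pool.Agent.NPC Pool.Agent.Helper6K1.BN

/-- `NP ⊆ BPP` if and only if every language in `NP` is `Distinguishable`: a randomised
polynomial-time test accepts the vector of the true answers to `c * log n` instances of length `n`
with a probability that exceeds its probability to accept a random vector by an inverse polynomial. -/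
theorem result :
    (∀ L : Set (List Bool), InNP L → Distinguishable L) ↔
      ∀ L : Set (List Bool), InNP L → InBPP L :=
  ⟨fun h _ hL => (dist_BPP h hL).1, fun h L hL => BPP_dist (h L hL)⟩

end Pool.Agent.Helper6K1.Old.AnswerVectors
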