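import Pool.Agent.Helper6K1.BN.T2c

set_option autoImplicit false

/-! `NP ⊆ BPP` holds exactly when every language in `NP` reduces to a sparse set by a randomised
bounded truth-table reduction whose acceptance probability has an inverse polynomial gap. -/

namespace Pool.Agent.Helper6K1.Old.SparseGap

open Pool.Agent.NPC Pool.Agent.Helper6K1.BN

/-- `NP ⊆ BPP` if and only if for every language `L` in `NP` there are a number `k` and a sparse set
`S` such that `L` reduces to `S` by a randomised truth-table reduction with `k` queries, with an
arbitrary threshold that depends only on the length of the input, and an inverse polynomial gap. -/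
theorem result :
    (∀ L : Set (List Bool), InNP L →
        ∃ (k : ℕ) (S : Set (List Bool)), Sparse S ∧ GapRed k L S) ↔
      ∀ L : Set (List Bool), InNP L → InBPP L :=
  ⟨fun h _ hL => (red_BPP h hL).1, fun h L hL => ⟨1, {[]}, BPP_red (h L hL)⟩⟩

end Pool.Agent.Helper6K1.Old.SparseGap
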